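import Pool.Agent.Lib.MP_b5021c_nt.IfaceOC

/-!
# Board b5, K odd, (O4), length at least five: the assembly `S5S` (OC_S5; helper27)

`G_2 := z f - psi / z = s z^(1-n) γ`, `s = ±1`, `γ(0) ≥ 1`.  `G_2 = 0`: W4.  `s = 1`, `n = 0`:
`γ(0) ≥ 2`: S5C; `γ(0) = 1`: W3 gives `psi = 0`: P5.  The other cases: S5A and W1 (`n ≠ 0`) or
W2 (`s = -1`, `n = 0`).
-/

namespace Pool.Agent.B5.OC27

open scoped LaurentPolynomial
open Polynomial
open Pool.Agent.B5
open Pool.Agent.B5.OC

/-- The lowest term of a Laurent polynomial. -/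
theorem lowest (G : LaurentPolynomial ℤ) (hG : G ≠ 0) :
    ∃ (N : ℤ) (g : ℤ[X]), G = LaurentPolynomial.T N * toLaurent g ∧ g.coeff 0 ≠ 0 := by
  obtain ⟨m, g0, h⟩ := LaurentPolynomial.exists_T_pow G
  have hg0 : g0 ≠ 0 := by
    rintro rfl
    rw [map_zero] at h
    have h1 : G * (LaurentPolynomial.T m * LaurentPolynomial.T (-(m : ℤ))) = 0 := by
      rw [← mul_assoc, ← h, zero_mul]
    rw [← LaurentPolynomial.T_add, add_neg_cancel, LaurentPolynomial.T_zero, mul_one] at h1
    exact hG h1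
  obtain ⟨d, hd, hd2⟩ : ∃ d, g0.coeff d ≠ 0 ∧ ∀ i < d, g0.coeff i = 0 :=
    ⟨g0.natTrailingDegree, Polynomial.trailingCoeff_nonzero_iff_nonzero.2 hg0,
      fun i hi => Polynomial.coeff_eq_zero_of_lt_natTrailingDegree hi⟩
  obtain ⟨g, rfl⟩ : ∃ g, g0 = X ^ d * g := Polynomial.X_pow_dvd_iff.2 hd2
  refine ⟨(d : ℤ) - m, g, ?_, ?_⟩
  · have h1 : G = toLaurent (X ^ d * g) * LaurentPolynomial.T (-(m : ℤ)) := by
      rw [h, mul_assoc, ← LaurentPolynomial.T_add, add_neg_cancel, LaurentPolynomial.T_zero,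
        mul_one]
    rw [h1, map_mul, Polynomial.toLaurent_X_pow, sub_eq_add_neg, LaurentPolynomial.T_add]
    ring
  · rwa [Polynomial.coeff_X_pow_mul', if_pos le_rfl, Nat.sub_self] at hd

/-- (OC_S5) length at least five is impossible. -/
theorem s5 (hArc : ArcS) (hP5 : P5S) (hA : S5aS) (hW1 : W1S) (hVr : VrS) (hW2 : W2S)
    (hC : S5cS) (hW3 : W3S) (hW4 : W4S) : S5S := by
  intro P L _ _ _ _ _ phi D q f E a j eta C k Z mu H hk
  obtain ⟨psi, hpsi⟩ := (hArc P L phi D q f E a j eta C k Z mu H).2 hk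
  by_cases hG : LaurentPolynomial.T 1 * toLaurent f - LaurentPolynomial.T (-1) * psi = 0
  · -- `psi = z² f`
    have h1 : psi = toLaurent (X ^ 2 * f) := by
      have h2 : LaurentPolynomial.T (-1) * psi = LaurentPolynomial.T 1 * toLaurent f :=
        (sub_eq_zero.1 hG).symm
      have h3 : LaurentPolynomial.T 1 * (LaurentPolynomial.T (-1) * psi) =
          LaurentPolynomial.T 1 * (LaurentPolynomial.T 1 * toLaurent f) := by rw [h2]
      rw [← mul_assoc, ← mul_assoc, ← LaurentPolynomial.T_add, ← LaurentPolynomial.T_add,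
        add_neg_cancel, LaurentPolynomial.T_zero, one_mul] at h3
      rw [h3, map_mul, Polynomial.toLaurent_X_pow]
      norm_num
    rw [h1] at hpsi
    obtain ⟨v1, -, -, v4, -⟩ := hVr P L phi D q f E f a j eta C k Z mu H hk hpsi
    refine hW4 q f E ((1 + X ^ 3) * f) ((1 + X) * f) j _ _ H.tp H.f0 H.eE H.E0 rfl rfl
      (v1 _ (by ring)) (v4 _ (Or.inl (by ring)) ?_)
    rw [add_mul, one_mul, coeff_add, H.f0, mul_coeff_zero]
    simp
  · obtain ⟨N, g, hN, hg⟩ := lowest _ hG
    obtain ⟨s, hs, hs0, hs1⟩ : ∃ s : ℤ, (s = 1 ∨ s = -1) ∧ 1 ≤ (Polynomial.C s * g).coeff 0 ∧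
        s * s = 1 := by
      rcases lt_or_gt_of_ne hg with h | h
      · exact ⟨-1, Or.inr rfl, by rw [coeff_C_mul]; omega, by norm_num⟩
      · exact ⟨1, Or.inl rfl, by rw [coeff_C_mul]; omega, by norm_num⟩
    obtain ⟨γ, hγ⟩ : ∃ γ, γ = Polynomial.C s * g := ⟨_, rfl⟩
    rw [← hγ] at hs0
    have hgγ : g = Polynomial.C s * γ := by
      rw [hγ, ← mul_assoc, ← Polynomial.C_mul, hs1, Polynomial.C_1, one_mul]
    have key : (LaurentPolynomial.C s * LaurentPolynomial.T (1 - N)) *
        (LaurentPolynomial.T 1 * toLaurent f - LaurentPolynomial.T (-1) * psi) =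
        LaurentPolynomial.T 1 * toLaurent γ := by
      rw [hN, hγ, map_mul, Polynomial.toLaurent_C]
      have : (LaurentPolynomial.T 1 : LaurentPolynomial ℤ) =
          LaurentPolynomial.T (1 - N) * LaurentPolynomial.T N := by
        rw [← LaurentPolynomial.T_add]; norm_num
      rw [this]
      ring
    have psi_eq : psi = LaurentPolynomial.T 2 * toLaurent f -
        LaurentPolynomial.T (1 + N) * toLaurent g := by
      have h3 : LaurentPolynomial.T 1 * (LaurentPolynomial.T 1 * toLaurent f -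
          LaurentPolynomial.T (-1) * psi) =
          LaurentPolynomial.T 1 * (LaurentPolynomial.T N * toLaurent g) := by rw [hN]
      rw [mul_sub, ← mul_assoc, ← mul_assoc, ← mul_assoc, ← LaurentPolynomial.T_add,
        ← LaurentPolynomial.T_add, ← LaurentPolynomial.T_add, add_neg_cancel,
        LaurentPolynomial.T_zero, one_mul] at h3
      rw [← h3]
      norm_num
    by_cases hcase : s = 1 ∧ (1 - N) = 0
    · obtain ⟨rfl, hN0⟩ := hcase
      have hN1 : N = 1 := by omega
      subst hN1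
      have hgg : g = γ := by rw [hgγ, Polynomial.C_1, one_mul]
      have h1 : psi = toLaurent (X ^ 2 * (f - γ)) := by
        rw [psi_eq, hgg, map_mul, map_sub, Polynomial.toLaurent_X_pow]
        norm_num
        ring
      rcases lt_or_ge 1 (γ.coeff 0) with h2 | h2
      · exact hC P L phi D q f E γ a j eta C k Z mu H hk (by rw [← h1]; exact hpsi) (by omega)
      · have hγ1 : γ.coeff 0 = 1 := le_antisymm h2 hs0
        have hpsi' := hpsi
        rw [h1] at hpsi'
        obtain ⟨v1, v2, -, -, v5⟩ := hVr P L phi D q f E (f - γ) a j eta C k Z mu H hk hpsi'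
        have hg3 : (f - (1 - X - X ^ 2) * (f - γ)).coeff 0 = 1 := by
          rw [coeff_sub, mul_coeff_zero, coeff_sub, coeff_sub, coeff_sub, H.f0, hγ1]
          simp
        obtain ⟨w1, w2⟩ := v2 _ rfl hg3
        have hfγ : f = γ := hW3 q f E γ _ _ j _ _ H.tp H.f0 H.eE H.E0 hγ1 rfl rfl (v1 _ rfl) w1
          w2 v5
        refine hP5 P L phi D q f E a j eta C k Z mu H hk ?_
        have h0 : psi = 0 := by rw [h1, hfγ, sub_self, mul_zero, map_zero]
        rw [h0] at hpsi
        exact hpsi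
    · have hsn : s ≠ 1 ∨ (1 - N) ≠ 0 := by
        by_contra hc
        rw [not_or, not_not, not_not] at hc
        exact hcase hc
      obtain ⟨hγ1, cc, p, hcc, hE, hp0, hn1, hn0⟩ := hA P L phi D q f E γ a j eta C k Z mu psi s
        (1 - N) H hk hpsi hs hsn hs0 key
      by_cases hn : (1 - N) = 0
      · have hs' : s = -1 := by
          rcases hs with h | h
          · exact absurd ⟨h, hn⟩ hcase
          · exact h
        subst hs'
        have hN1 : N = 1 := by omega
        subst hN1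
        have hcc1 : cc = 1 := by
          rcases hcc with h | h
          · exact h
          · exact absurd hn h.2
        have h1 : psi = toLaurent (X ^ 2 * (f + γ)) := by
          rw [psi_eq, hgγ, map_mul, map_mul, map_add, Polynomial.toLaurent_X_pow,
            Polynomial.toLaurent_C]
          norm_num
          ring
        rw [h1] at hpsi
        obtain ⟨v1, -, v3, -, -⟩ := hVr P L phi D q f E (f + γ) a j eta C k Z mu H hk hpsi
        have hg3 : ((1 - X - X ^ 2) * (f + γ) - f).coeff 0 = 1 := by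
          rw [coeff_sub, mul_coeff_zero, coeff_add, coeff_sub, coeff_sub, H.f0, hγ1]
          simp
        exact hW2 q f E γ p _ _ _ j _ _ H.tp H.f0 H.eE H.E0 hγ1 H.Ez H.cusp
          (by rw [hE, hcc1, one_mul]) rfl rfl rfl (v1 _ rfl) (v3 _ rfl hg3) (hn0 hn)
      · obtain ⟨⟨g1, hg1, hb1, hc1⟩, g3, hg3, hb3, hc3⟩ := hn1 hn
        exact hW1 q f E γ cc p g1 g3 j (1 - N).natAbs s _ _ H.tp H.f0 H.eE H.E0 hγ1
          (by omega) hs (hcc.imp_right And.left) hE hp0 hb1 hb3 hg1 hg3 hc1 hc3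

end Pool.Agent.B5.OC27
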